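import Mathlib
import Pool.Agent.H964.DP.Stm

/-!
# Project DP (helper964), task SMOOTH
-/

set_option autoImplicit false

open Filter Finset

namespace Pool.Agent.H784.DP

open Pool.Agent.H964.DP

theorem ns_nonneg (z : V) : 0 ≤ ns z := by unfold ns; positivity

theorem ns_tendsto : Tendsto ns cofinite atTop := by
  refine tendsto_atTop.2 fun C => ?_
  rw [eventually_cofinite]
  obtain ⟨N, hN⟩ := exists_nat_ge C
  refine Set.Finite.subset (Finset.finite_toSet (Finset.Icc (-(N : ℤ)) N ×ˢ Finset.Icc (-(N : ℤ)) N))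
    fun z hz => ?_
  have hz' : ns z < C := not_le.1 hz
  unfold ns at hz'
  have key : ∀ t : ℤ, (t : ℝ) ^ 2 < C → -(N : ℤ) ≤ t ∧ t ≤ N := by
    intro t ht
    have h1 : ((t ^ 2 : ℤ) : ℝ) < ((N : ℤ) : ℝ) := by push_cast; linarith
    have h2 : t ^ 2 < (N : ℤ) := by exact_mod_cast h1
    have h3 : |t| ≤ t ^ 2 := by
      rw [← sq_abs]
      have := Int.le_self_sq |t|
      exact this
    exact abs_le.1 (by linarith)
  have k1 := key z.1 (by nlinarith [sq_nonneg (z.2 : ℝ)])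
  have k2 := key z.2 (by nlinarith [sq_nonneg (z.1 : ℝ)])
  simp only [Finset.coe_product, Finset.coe_Icc, Set.mem_prod, Set.mem_Icc]
  exact ⟨k1, k2⟩

theorem fst_div (t : V → ℝ) (ht : ∀ x, t x ^ 2 ≤ ns x) :
    Tendsto (fun x : V => t x / ns x) cofinite (nhds 0) := by
  have h1 : Tendsto (fun x : V => (Real.sqrt (ns x))⁻¹) cofinite (nhds 0) :=
    tendsto_inv_atTop_zero.comp (Real.tendsto_sqrt_atTop.comp ns_tendsto)
  refine squeeze_zero_norm (fun x => ?_) h1
  rw [Real.norm_eq_abs, abs_div, abs_of_nonneg (ns_nonneg x)]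
  have h2 : |t x| ≤ Real.sqrt (ns x) := Real.abs_le_sqrt (ht x)
  rcases (ns_nonneg x).eq_or_lt with h0 | h0
  · rw [← h0]; simp
  · rw [div_le_iff₀ h0, inv_mul_eq_div, Real.div_sqrt]
    exact h2

theorem ratio_tendsto (v : V) : Tendsto (fun x : V => ns (x + v) / ns x) cofinite (nhds 1) := by
  have h1 := fst_div (fun x => (x.1 : ℝ)) (fun x => by unfold ns; nlinarith [sq_nonneg (x.2 : ℝ)])
  have h2 := fst_div (fun x => (x.2 : ℝ)) (fun x => by unfold ns; nlinarith [sq_nonneg (x.1 : ℝ)])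
  have h3 : Tendsto (fun x : V => (ns x)⁻¹) cofinite (nhds 0) :=
    tendsto_inv_atTop_zero.comp ns_tendsto
  have h4 : Tendsto (fun x : V => 1 + (2 * v.1 * ((x.1 : ℝ) / ns x) + 2 * v.2 * ((x.2 : ℝ) / ns x) +
      ns v * (ns x)⁻¹)) cofinite (nhds (1 + (2 * v.1 * 0 + 2 * v.2 * 0 + ns v * 0))) :=
    tendsto_const_nhds.add (((h1.const_mul _).add (h2.const_mul _)).add (h3.const_mul _))
  have h5 : (1 + (2 * (v.1 : ℝ) * 0 + 2 * (v.2 : ℝ) * 0 + ns v * 0)) = 1 := by ring
  rw [h5] at h4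
  refine h4.congr' ?_
  filter_upwards [ns_tendsto.eventually_gt_atTop 0] with x hx
  have e : ns (x + v) = ns x + (2 * v.1 * x.1 + 2 * v.2 * x.2 + ns v) := by
    unfold ns; simp only [Prod.fst_add, Prod.snd_add, Int.cast_add]; ring
  rw [e]
  field_simp

theorem shift_tendsto (v : V) : Tendsto (fun x : V => x + v) cofinite cofinite :=
  (add_left_injective v).tendsto_cofinite

theorem logratio_tendsto (v : V) :
    Tendsto (fun x : V => (Real.log (ns (x + v)) / 2) / (Real.log (ns x) / 2)) cofinite (nhds 1) := by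
  have h1 : Tendsto (fun x : V => Real.log (ns (x + v) / ns x)) cofinite (nhds 0) := by
    have := (ratio_tendsto v).log one_ne_zero
    rwa [Real.log_one] at this
  have h2 : Tendsto (fun x : V => (Real.log (ns x))⁻¹) cofinite (nhds 0) :=
    tendsto_inv_atTop_zero.comp (Real.tendsto_log_atTop.comp ns_tendsto)
  have h3 : Tendsto (fun x : V => 1 + Real.log (ns (x + v) / ns x) * (Real.log (ns x))⁻¹) cofinite
      (nhds (1 + 0 * 0)) := tendsto_const_nhds.add (h1.mul h2)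
  have h5 : (1 + 0 * 0 : ℝ) = 1 := by ring
  rw [h5] at h3
  refine h3.congr' ?_
  filter_upwards [ns_tendsto.eventually_gt_atTop 1,
    (shift_tendsto v).eventually (ns_tendsto.eventually_gt_atTop 1)] with x hx hx'
  have hl : 0 < Real.log (ns x) := Real.log_pos hx
  rw [Real.log_div (by linarith) (by linarith)]
  field_simp
  ring

theorem asym_shift {a : ℝ} {h : V → ℝ} (hh : Asym a h) (v : V) :
    Tendsto (fun x : V => h (x + v) * ns x / (Real.log (ns x) / 2) ^ a) cofinite (nhds 1) := by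
  have h1 : Tendsto (fun x : V => h (x + v) * ns (x + v) / (Real.log (ns (x + v)) / 2) ^ a)
      cofinite (nhds 1) := hh.comp (shift_tendsto v)
  have h2 : Tendsto (fun x : V => (ns (x + v) / ns x)⁻¹) cofinite (nhds 1) := by
    have := (ratio_tendsto v).inv₀ one_ne_zero
    rwa [inv_one] at this
  have h3 : Tendsto (fun x : V => ((Real.log (ns (x + v)) / 2) / (Real.log (ns x) / 2)) ^ a)
      cofinite (nhds 1) := by
    have := (logratio_tendsto v).rpow_const (p := a) (Or.inl one_ne_zero)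
    rwa [Real.one_rpow] at this
  have h4 := (h1.mul h2).mul h3
  rw [one_mul, one_mul] at h4
  refine h4.congr' ?_
  filter_upwards [ns_tendsto.eventually_gt_atTop 1,
    (shift_tendsto v).eventually (ns_tendsto.eventually_gt_atTop 1)] with x hx hx'
  have hl : 0 < Real.log (ns x) / 2 := half_pos (Real.log_pos hx)
  have hl' : 0 < Real.log (ns (x + v)) / 2 := half_pos (Real.log_pos hx')
  rw [Real.div_rpow hl'.le hl.le]
  have p1 : 0 < (Real.log (ns x) / 2) ^ a := Real.rpow_pos_of_pos hl a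
  have p2 : 0 < (Real.log (ns (x + v)) / 2) ^ a := Real.rpow_pos_of_pos hl' a
  have q1 : ns (x + v) ≠ 0 := by linarith
  have q2 : ns x ≠ 0 := by linarith
  generalize (Real.log (ns x) / 2) ^ a = A at *
  generalize (Real.log (ns (x + v)) / 2) ^ a = B at *
  field_simp

theorem asym_avg {a : ℝ} {h : V → ℝ} (hh : Asym a h) {ι : Type} (s : Finset ι) (hs : s.Nonempty)
    (v : ι → V) : Asym a (fun x => (∑ i ∈ s, h (x + v i)) / (s.card : ℝ)) := by
  have h1 : Tendsto (fun x : V => (∑ i ∈ s, h (x + v i) * ns x / (Real.log (ns x) / 2) ^ a) /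
      (s.card : ℝ)) cofinite (nhds ((∑ _i ∈ s, (1 : ℝ)) / (s.card : ℝ))) :=
    (tendsto_finsetSum s fun i _ => asym_shift hh (v i)).div_const _
  have hc : (s.card : ℝ) ≠ 0 := by exact_mod_cast hs.card_ne_zero
  have h2 : (∑ _i ∈ s, (1 : ℝ)) / (s.card : ℝ) = 1 := by
    rw [Finset.sum_const, nsmul_eq_mul, mul_one, div_self hc]
  rw [h2] at h1
  refine h1.congr fun x => ?_
  rw [← Finset.sum_div, ← Finset.sum_mul]
  ring

theorem asym_ht {a : ℝ} {h : V → ℝ} (hh : Asym a h) {B : Finset V} (hB : B.Nonempty) :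
    Asym a (ht B h) := asym_avg hh B hB id

theorem asym_hb {a : ℝ} {h : V → ℝ} (hh : Asym a h) {B : Finset V} (hB : B.Nonempty) :
    Asym a (hb B h) := by
  have h1 := asym_avg hh (B ×ˢ B) (hB.product hB) (fun p => p.1 - p.2)
  have h2 : hb B h = fun x => (∑ i ∈ B ×ˢ B, h (x + (i.1 - i.2))) / ((B ×ˢ B).card : ℝ) := by
    funext x
    unfold hb
    rw [Finset.sum_product, Finset.card_product]
    push_cast
    rw [← sq]
    simp only [add_sub_assoc]
  rw [h2]
  exact h1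

/-- (1) the polynomial-logarithmic bound -/
theorem exists_LB {a : ℝ} {h : V → ℝ} (hh : Asym a h) : ∃ (C : ℝ) (A : ℕ), 0 < C ∧ LB h C A := by
  obtain ⟨A, hA⟩ := exists_nat_ge a
  have hw : ∀ z : V, 0 < (1 + Real.log (1 + ns z)) ^ A / (1 + ns z) := by
    intro z
    have h0 := ns_nonneg z
    have h1 : 0 ≤ Real.log (1 + ns z) := Real.log_nonneg (by linarith)
    positivity
  have hev : ∀ᶠ z : V in cofinite, |h z| ≤ 4 * ((1 + Real.log (1 + ns z)) ^ A / (1 + ns z)) := by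
    have e1 : ∀ᶠ z : V in cofinite, |h z * ns z / (Real.log (ns z) / 2) ^ a| < 2 := by
      have := hh.abs.eventually_lt_const (u := 2) (by norm_num)
      exact this
    filter_upwards [e1, ns_tendsto.eventually_gt_atTop (Real.exp 2)] with z hz hz2
    have n1 : 1 < ns z := lt_trans (Real.one_lt_exp_iff.2 (by norm_num)) hz2
    have l1 : 1 < Real.log (ns z) / 2 := by
      have : 2 < Real.log (ns z) := by
        rw [Real.lt_log_iff_exp_lt (by linarith)]; exact hz2
      linarith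
    have l2 : (Real.log (ns z) / 2) ^ a ≤ (1 + Real.log (1 + ns z)) ^ A := by
      calc (Real.log (ns z) / 2) ^ a ≤ (Real.log (ns z) / 2) ^ (A : ℝ) :=
            Real.rpow_le_rpow_of_exponent_le l1.le hA
        _ = (Real.log (ns z) / 2) ^ A := Real.rpow_natCast _ _
        _ ≤ (1 + Real.log (1 + ns z)) ^ A := by
            refine pow_le_pow_left₀ (by linarith) ?_ A
            have : Real.log (ns z) ≤ Real.log (1 + ns z) :=
              Real.log_le_log (by linarith) (by linarith)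
            linarith
    have p1 : 0 < (Real.log (ns z) / 2) ^ a := Real.rpow_pos_of_pos (by linarith) a
    rw [abs_div, abs_mul, abs_of_pos p1, abs_of_pos (by linarith : 0 < ns z),
      div_lt_iff₀ p1] at hz
    have hq : |h z| * ns z < 2 * (1 + Real.log (1 + ns z)) ^ A := by linarith
    rw [← mul_div_assoc, le_div_iff₀ (by linarith)]
    nlinarith [abs_nonneg (h z)]
  have hfin := eventually_cofinite.1 hev
  set s := hfin.toFinset with hs
  refine ⟨4 + ∑ z ∈ s, |h z| / ((1 + Real.log (1 + ns z)) ^ A / (1 + ns z)), A, ?_, fun z => ?_⟩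
  · have : 0 ≤ ∑ z ∈ s, |h z| / ((1 + Real.log (1 + ns z)) ^ A / (1 + ns z)) :=
      Finset.sum_nonneg fun z _ => div_nonneg (abs_nonneg _) (hw z).le
    linarith
  · rw [mul_div_assoc, add_mul]
    by_cases hz : z ∈ s
    · have h1 : |h z| / ((1 + Real.log (1 + ns z)) ^ A / (1 + ns z)) ≤
          ∑ z ∈ s, |h z| / ((1 + Real.log (1 + ns z)) ^ A / (1 + ns z)) :=
        Finset.single_le_sum (f := fun z => |h z| / ((1 + Real.log (1 + ns z)) ^ A / (1 + ns z)))
          (fun z _ => div_nonneg (abs_nonneg _) (hw z).le) hz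
      have h2 := mul_le_mul_of_nonneg_right h1 (hw z).le
      rw [div_mul_cancel₀ _ (hw z).ne'] at h2
      have h3 := hw z
      linarith
    · have h1 : |h z| ≤ 4 * ((1 + Real.log (1 + ns z)) ^ A / (1 + ns z)) := by
        by_contra hne
        exact hz (hfin.mem_toFinset.2 hne)
      have h2 : 0 ≤ (∑ z ∈ s, |h z| / ((1 + Real.log (1 + ns z)) ^ A / (1 + ns z))) *
          ((1 + Real.log (1 + ns z)) ^ A / (1 + ns z)) :=
        mul_nonneg (Finset.sum_nonneg fun z _ => div_nonneg (abs_nonneg _) (hw z).le) (hw z).le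
      linarith

/-- comparison function -/
noncomputable def u (z : V) : ℝ := 1 / (ns z * Real.log (ns z))

theorem u_nonneg (z : V) : 0 ≤ u z := by
  unfold u
  have h0 := ns_nonneg z
  rcases h0.eq_or_lt with h | h
  · rw [← h]; simp
  · by_cases h1 : 1 ≤ ns z
    · have := Real.log_nonneg h1
      positivity
    · exfalso
      have h2 : ns z < 1 := not_le.1 h1
      unfold ns at h h2
      have k : ((z.1 ^ 2 + z.2 ^ 2 : ℤ) : ℝ) < ((1 : ℤ) : ℝ) := by push_cast; exact h2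
      have k' : ((0 : ℤ) : ℝ) < ((z.1 ^ 2 + z.2 ^ 2 : ℤ) : ℝ) := by push_cast; exact h
      have k1 : z.1 ^ 2 + z.2 ^ 2 < 1 := by exact_mod_cast k
      have k2 : 0 < z.1 ^ 2 + z.2 ^ 2 := by exact_mod_cast k'
      omega

theorem block (J : ℕ) : 1 / (8 * (2 * (J : ℝ) + 3)) ≤
    ∑ z ∈ Finset.Icc ((2 : ℤ) ^ J + 1) (2 ^ (J + 1)) ×ˢ Finset.Icc ((2 : ℤ) ^ J + 1) (2 ^ (J + 1)),
      u z := by
  have hcard : (Finset.Icc ((2 : ℤ) ^ J + 1) (2 ^ (J + 1)) ×ˢ
      Finset.Icc ((2 : ℤ) ^ J + 1) (2 ^ (J + 1))).card = 4 ^ J := by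
    rw [Finset.card_product, Int.card_Icc]
    have : ((2 : ℤ) ^ (J + 1) + 1 - (2 ^ J + 1)).toNat = 2 ^ J := by
      have : (2 : ℤ) ^ (J + 1) + 1 - (2 ^ J + 1) = ((2 ^ J : ℕ) : ℤ) := by push_cast; ring
      rw [this, Int.toNat_natCast]
    rw [this, ← mul_pow]
    norm_num
  have hpt : ∀ z ∈ Finset.Icc ((2 : ℤ) ^ J + 1) (2 ^ (J + 1)) ×ˢ
      Finset.Icc ((2 : ℤ) ^ J + 1) (2 ^ (J + 1)),
      1 / (8 * (4 : ℝ) ^ J * (2 * (J : ℝ) + 3)) ≤ u z := by
    intro z hz
    rw [Finset.mem_product, Finset.mem_Icc, Finset.mem_Icc] at hz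
    obtain ⟨⟨h1, h2⟩, h3, h4⟩ := hz
    have h1' : (2 : ℝ) ^ J + 1 ≤ z.1 := by exact_mod_cast h1
    have h2' : (z.1 : ℝ) ≤ 2 ^ (J + 1) := by exact_mod_cast h2
    have h3' : (2 : ℝ) ^ J + 1 ≤ z.2 := by exact_mod_cast h3
    have h4' : (z.2 : ℝ) ≤ 2 ^ (J + 1) := by exact_mod_cast h4
    have hp : (1 : ℝ) ≤ 2 ^ J := one_le_pow₀ (by norm_num)
    have e4 : (4 : ℝ) ^ J = 2 ^ J * 2 ^ J := by rw [← mul_pow]; norm_num
    have hub : ns z ≤ 8 * 4 ^ J := by
      unfold ns
      rw [pow_succ] at h2' h4'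
      nlinarith
    have hlb : 2 < ns z := by
      unfold ns
      nlinarith
    have hl0 : 0 < Real.log (ns z) := Real.log_pos (by linarith)
    have hl : Real.log (ns z) ≤ 2 * (J : ℝ) + 3 := by
      calc Real.log (ns z) ≤ Real.log (8 * 4 ^ J) := Real.log_le_log (by linarith) hub
        _ = (2 * (J : ℝ) + 3) * Real.log 2 := by
            have : (8 * 4 ^ J : ℝ) = 2 ^ (2 * J + 3) := by
              rw [pow_add, pow_mul]; norm_num; ring
            rw [this, Real.log_pow]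
            push_cast
            ring
        _ ≤ (2 * (J : ℝ) + 3) * 1 := by
            refine mul_le_mul_of_nonneg_left ?_ (by positivity)
            have := Real.log_two_lt_d9
            linarith
        _ = 2 * (J : ℝ) + 3 := mul_one _
    unfold u
    refine one_div_le_one_div_of_le (by positivity) ?_
    exact mul_le_mul hub hl hl0.le (by positivity)
  calc 1 / (8 * (2 * (J : ℝ) + 3)) = (4 ^ J : ℕ) • (1 / (8 * (4 : ℝ) ^ J * (2 * (J : ℝ) + 3))) := by
        rw [nsmul_eq_mul]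
        push_cast
        have : (4 : ℝ) ^ J ≠ 0 := by positivity
        have h3 : 2 * (J : ℝ) + 3 ≠ 0 := by positivity
        field_simp
    _ ≤ _ := by
        rw [← hcard]
        exact Finset.card_nsmul_le_sum _ _ _ hpt

theorem div_sum (R : ℤ) (T : ℝ) : ∃ N : ℤ, R ≤ N ∧ 0 ≤ N ∧
    T ≤ ∑ z ∈ Finset.Icc R N ×ˢ Finset.Icc R N, u z := by
  obtain ⟨j, hj⟩ : ∃ j : ℕ, R ≤ 2 ^ j := by
    refine ⟨R.toNat, ?_⟩
    have h1 : R ≤ (R.toNat : ℤ) := Int.self_le_toNat R
    have h2 : (R.toNat : ℤ) < 2 ^ R.toNat := by exact_mod_cast Nat.lt_two_pow_self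
    linarith
  have hind : ∀ n : ℕ, (1 / (8 * (2 * (j : ℝ) + 3))) * ∑ i ∈ Finset.range n, 1 / ((i : ℝ) + 1) ≤
      ∑ z ∈ Finset.Icc R (2 ^ (j + n)) ×ˢ Finset.Icc R (2 ^ (j + n)), u z := by
    intro n
    induction n with
    | zero =>
      simp only [Finset.range_zero, Finset.sum_empty, mul_zero]
      exact Finset.sum_nonneg fun z _ => u_nonneg z
    | succ n ih =>
      rw [Finset.sum_range_succ, mul_add]
      have hb := block (j + n)
      have hj2 : R ≤ 2 ^ (j + n) := hj.trans (pow_le_pow_right₀ (by norm_num) (Nat.le_add_right _ _))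
      have hsub : (Finset.Icc R (2 ^ (j + n)) ×ˢ Finset.Icc R (2 ^ (j + n))) ∪
          (Finset.Icc ((2 : ℤ) ^ (j + n) + 1) (2 ^ (j + n + 1)) ×ˢ
            Finset.Icc ((2 : ℤ) ^ (j + n) + 1) (2 ^ (j + n + 1))) ⊆
          Finset.Icc R (2 ^ (j + (n + 1))) ×ˢ Finset.Icc R (2 ^ (j + (n + 1))) := by
        have hpp : (2 : ℤ) ^ (j + n) ≤ 2 ^ (j + (n + 1)) :=
          pow_le_pow_right₀ (by norm_num) (by omega)
        intro z hz
        rw [Finset.mem_union, Finset.mem_product, Finset.mem_product] at hz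
        simp only [Finset.mem_Icc] at hz
        rw [Finset.mem_product]
        simp only [Finset.mem_Icc]
        rw [← add_assoc] at hpp ⊢
        rcases hz with ⟨⟨a1, a2⟩, a3, a4⟩ | ⟨⟨a1, a2⟩, a3, a4⟩
        · exact ⟨⟨a1, by linarith⟩, a3, by linarith⟩
        · exact ⟨⟨by linarith, a2⟩, by linarith, a4⟩
      have hdisj : Disjoint (Finset.Icc R (2 ^ (j + n)) ×ˢ Finset.Icc R (2 ^ (j + n)))
          (Finset.Icc ((2 : ℤ) ^ (j + n) + 1) (2 ^ (j + n + 1)) ×ˢ
            Finset.Icc ((2 : ℤ) ^ (j + n) + 1) (2 ^ (j + n + 1))) := by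
        rw [Finset.disjoint_left]
        intro z h1 h2
        rw [Finset.mem_product, Finset.mem_Icc, Finset.mem_Icc] at h1 h2
        linarith [h1.1.2, h2.1.1]
      have h3 := Finset.sum_le_sum_of_subset_of_nonneg hsub (f := u) (fun z _ _ => u_nonneg z)
      rw [Finset.sum_union hdisj] at h3
      have h4 : 1 / (8 * (2 * (j : ℝ) + 3)) * (1 / ((n : ℝ) + 1)) ≤
          1 / (8 * (2 * ((j + n : ℕ) : ℝ) + 3)) := by
        rw [one_div_mul_one_div]
        refine one_div_le_one_div_of_le (by positivity) ?_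
        push_cast
        have hj0 : (0 : ℝ) ≤ j := Nat.cast_nonneg j
        have hn0 : (0 : ℝ) ≤ n := Nat.cast_nonneg n
        nlinarith [mul_nonneg hj0 hn0]
      linarith
  have hc : (0 : ℝ) < 1 / (8 * (2 * (j : ℝ) + 3)) := by positivity
  have hlim := (Real.tendsto_sum_range_one_div_nat_succ_atTop).const_mul_atTop hc
  obtain ⟨n, hn⟩ := (hlim.eventually_ge_atTop T).exists
  refine ⟨2 ^ (j + n), hj.trans (pow_le_pow_right₀ (by norm_num) (Nat.le_add_right _ _)),
    by positivity, hn.trans (hind n)⟩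

theorem ev_u {a : ℝ} (ha : -1 < a) {h : V → ℝ} (hh : Asym a h) : ∀ᶠ z in cofinite, u z ≤ h z := by
  have e1 : ∀ᶠ z : V in cofinite, 1 / 2 < h z * ns z / (Real.log (ns z) / 2) ^ a :=
    hh.eventually_const_lt (by norm_num)
  filter_upwards [e1, ns_tendsto.eventually_gt_atTop (Real.exp 2)] with z hz hz2
  have n1 : 1 < ns z := lt_trans (Real.one_lt_exp_iff.2 (by norm_num)) hz2
  have l0 : 2 < Real.log (ns z) := by
    rw [Real.lt_log_iff_exp_lt (by linarith)]; exact hz2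
  have l1 : 1 < Real.log (ns z) / 2 := by linarith
  have p1 : 0 < (Real.log (ns z) / 2) ^ a := Real.rpow_pos_of_pos (by linarith) a
  have l2 : (Real.log (ns z) / 2)⁻¹ ≤ (Real.log (ns z) / 2) ^ a := by
    rw [← Real.rpow_neg_one]
    exact Real.rpow_le_rpow_of_exponent_le l1.le ha.le
  rw [lt_div_iff₀ p1] at hz
  unfold u
  rw [div_le_iff₀ (by positivity)]
  have l3 : (Real.log (ns z) / 2)⁻¹ / 2 ≤ h z * ns z := by linarith
  have l4 : (Real.log (ns z) / 2)⁻¹ / 2 = (Real.log (ns z))⁻¹ := by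
    rw [inv_div]; field_simp
  rw [l4, inv_le_iff_one_le_mul₀ (by linarith)] at l3
  linarith

theorem box {a : ℝ} (ha : -1 < a) {h : V → ℝ} (hh : Asym a h) :
    ∃ B : Finset V, (0 : V) ∈ B ∧ (∀ x, 0 ≤ ∑ y ∈ B, h (x + y)) ∧ 0 < ∑ y ∈ B, h (0 + y) := by
  have hfin := eventually_cofinite.1 (ev_u ha hh)
  obtain ⟨r, hr0, hr⟩ : ∃ r : ℤ, 0 ≤ r ∧ ∀ z : V, ¬ (u z ≤ h z) → |z.1| ≤ r ∧ |z.2| ≤ r := by
    refine ⟨∑ z ∈ hfin.toFinset, (|z.1| + |z.2|),
      Finset.sum_nonneg fun z _ => by positivity, fun z hz => ?_⟩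
    have h1 : |z.1| + |z.2| ≤ ∑ z ∈ hfin.toFinset, (|z.1| + |z.2|) :=
      Finset.single_le_sum (f := fun z : V => |z.1| + |z.2|) (fun z _ => by positivity)
        (hfin.mem_toFinset.2 hz)
    have h2 := abs_nonneg z.1
    have h3 := abs_nonneg z.2
    constructor <;> linarith
  set F : Finset V := Finset.Icc (-r) r ×ˢ Finset.Icc (-r) r with hF
  have hmF : ∀ z : V, z ∈ F ↔ |z.1| ≤ r ∧ |z.2| ≤ r := by
    intro z
    rw [hF, Finset.mem_product, Finset.mem_Icc, Finset.mem_Icc, abs_le, abs_le]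
  have hu : ∀ z : V, z ∉ F → u z ≤ h z := by
    intro z hz
    by_contra hne
    exact hz ((hmF z).2 (hr z hne))
  obtain ⟨N, hRN, hN0, hN⟩ := div_sum (r + 1) (∑ z ∈ F, |h z| + 1)
  set B : Finset V := Finset.Icc 0 (2 * N) ×ˢ Finset.Icc 0 (2 * N) with hB
  have hmain : ∀ x : V, (∃ z, z ∈ B.image (fun y => x + y) ∧ z ∈ F) →
      1 ≤ ∑ y ∈ B, h (x + y) := by
    rintro x ⟨z₀, hz₀X, hz₀F⟩
    set X : Finset V := B.image (fun y => x + y) with hX
    have hmX : ∀ z : V, z ∈ X ↔ (x.1 ≤ z.1 ∧ z.1 ≤ x.1 + 2 * N) ∧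
        (x.2 ≤ z.2 ∧ z.2 ≤ x.2 + 2 * N) := by
      intro z
      rw [hX, Finset.mem_image]
      constructor
      · rintro ⟨y, hy, rfl⟩
        rw [hB, Finset.mem_product, Finset.mem_Icc, Finset.mem_Icc] at hy
        simp only [Prod.fst_add, Prod.snd_add]
        omega
      · intro hz
        refine ⟨z - x, ?_, by simp⟩
        rw [hB, Finset.mem_product, Finset.mem_Icc, Finset.mem_Icc]
        simp only [Prod.fst_sub, Prod.snd_sub]
        omega
    have hsumX : ∑ y ∈ B, h (x + y) = ∑ z ∈ X, h z := by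
      rw [hX, Finset.sum_image]
      intro y _ y' _ hyy
      exact add_left_cancel hyy
    have hsgn : ∀ p q : ℤ, (p ≤ q ∧ q ≤ p + 2 * N) → |q| ≤ r →
        ∃ s : ℤ, (s = 1 ∨ s = -1) ∧ ∀ t, r + 1 ≤ t → t ≤ N → p ≤ s * t ∧ s * t ≤ p + 2 * N := by
      intro p q hpq hq
      have hq' := abs_le.1 hq
      by_cases hc : -N ≤ p
      · exact ⟨1, Or.inl rfl, fun t h1 h2 => by omega⟩
      · exact ⟨-1, Or.inr rfl, fun t h1 h2 => by omega⟩
    obtain ⟨hz1, hz2⟩ := (hmX z₀).1 hz₀X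
    obtain ⟨hf1, hf2⟩ := (hmF z₀).1 hz₀F
    obtain ⟨s₁, hs₁, hS₁⟩ := hsgn x.1 z₀.1 hz1 hf1
    obtain ⟨s₂, hs₂, hS₂⟩ := hsgn x.2 z₀.2 hz2 hf2
    set Q : Finset V := Finset.Icc (r + 1) N ×ˢ Finset.Icc (r + 1) N with hQ
    set Y : Finset V := Q.image (fun t => (s₁ * t.1, s₂ * t.2)) with hY
    have hs₁0 : s₁ ≠ 0 := by rcases hs₁ with rfl | rfl <;> norm_num
    have hs₂0 : s₂ ≠ 0 := by rcases hs₂ with rfl | rfl <;> norm_num
    have hsumY : ∑ z ∈ Y, h z = ∑ t ∈ Q, h (s₁ * t.1, s₂ * t.2) := by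
      rw [hY, Finset.sum_image]
      intro t _ t' _ htt
      have e1 : s₁ * t.1 = s₁ * t'.1 := congrArg Prod.fst htt
      have e2 : s₂ * t.2 = s₂ * t'.2 := congrArg Prod.snd htt
      exact Prod.ext (mul_left_cancel₀ hs₁0 e1) (mul_left_cancel₀ hs₂0 e2)
    have hYF : ∀ t ∈ Q, ((s₁ * t.1, s₂ * t.2) : V) ∉ F := by
      intro t ht hm
      rw [hQ, Finset.mem_product, Finset.mem_Icc, Finset.mem_Icc] at ht
      have h1 := ((hmF _).1 hm).1
      simp only at h1
      rcases hs₁ with rfl | rfl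
      · have := abs_le.1 h1; omega
      · have := abs_le.1 h1; omega
    have hYX : Y ⊆ X.filter (fun z => z ∉ F) := by
      intro z hz
      rw [hY, Finset.mem_image] at hz
      obtain ⟨t, ht, rfl⟩ := hz
      have ht' := ht
      rw [hQ, Finset.mem_product, Finset.mem_Icc, Finset.mem_Icc] at ht'
      rw [Finset.mem_filter]
      refine ⟨(hmX _).2 ⟨hS₁ t.1 ht'.1.1 ht'.1.2, hS₂ t.2 ht'.2.1 ht'.2.2⟩, hYF t ht⟩
    have e1 : ∑ z ∈ Q, u z ≤ ∑ z ∈ Y, h z := by
      rw [hsumY]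
      refine Finset.sum_le_sum fun t ht => ?_
      have h1 := hu _ (hYF t ht)
      have h2 : ns ((s₁ * t.1, s₂ * t.2) : V) = ns t := by
        unfold ns
        rcases hs₁ with rfl | rfl <;> rcases hs₂ with rfl | rfl <;> push_cast <;> ring
      have h3 : u ((s₁ * t.1, s₂ * t.2) : V) = u t := by
        unfold u
        rw [h2]
      rwa [h3] at h1
    have e2 : ∑ z ∈ Y, h z ≤ ∑ z ∈ X.filter (fun z => z ∉ F), h z := by
      refine Finset.sum_le_sum_of_subset_of_nonneg hYX fun z hz _ => ?_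
      rw [Finset.mem_filter] at hz
      exact (u_nonneg z).trans (hu z hz.2)
    have e3 : -∑ z ∈ F, |h z| ≤ ∑ z ∈ X.filter (fun z => z ∈ F), h z := by
      have f1 : ∑ z ∈ X.filter (fun z => z ∈ F), |h z| ≤ ∑ z ∈ F, |h z| := by
        refine Finset.sum_le_sum_of_subset_of_nonneg ?_ fun z _ _ => abs_nonneg _
        intro z hz
        exact (Finset.mem_filter.1 hz).2
      have f2 := Finset.abs_sum_le_sum_abs (fun z => h z) (X.filter (fun z => z ∈ F))
      have f3 := neg_abs_le (∑ z ∈ X.filter (fun z => z ∈ F), h z)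
      linarith
    have e4 := Finset.sum_filter_add_sum_filter_not X (fun z => z ∈ F) h
    rw [hsumX, ← e4]
    linarith
  have h0B : (0 : V) ∈ B := by
    rw [hB, Finset.mem_product, Finset.mem_Icc, Finset.mem_Icc]
    simp only [Prod.fst_zero, Prod.snd_zero]
    omega
  refine ⟨B, h0B, fun x => ?_, ?_⟩
  · by_cases hx : ∃ z, z ∈ B.image (fun y => x + y) ∧ z ∈ F
    · exact zero_le_one.trans (hmain x hx)
    · push Not at hx
      refine Finset.sum_nonneg fun y hy => ?_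
      exact (u_nonneg _).trans (hu _ (hx _ (Finset.mem_image_of_mem _ hy)))
  · refine lt_of_lt_of_le one_pos (hmain 0 ⟨0, ?_, ?_⟩)
    · rw [Finset.mem_image]
      exact ⟨0, h0B, by simp⟩
    · rw [hmF]
      simp [hr0]

theorem t_SMOOTH : Pool.Agent.H964.DP.S_SMOOTH := by
  intro a ha h hh
  refine ⟨exists_LB hh, ?_⟩
  obtain ⟨B, h0, hB, hB0⟩ := box ha hh
  have hne : B.Nonempty := ⟨0, h0⟩
  have hc : (0 : ℝ) < B.card := by exact_mod_cast hne.card_pos
  exact ⟨B, hne, fun x => div_nonneg (hB x) hc.le, div_pos hB0 hc, asym_ht hh hne, asym_hb hh hne⟩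

end Pool.Agent.H784.DP
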